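import Pool.Agent.N410.DC.Gen
import Pool.Agent.R769.MN.Mat
import Pool.Agent.N399.DM.Main
import Pool.Agent.R545.PC.Main

/-!
# Orientable five cycle double covers after the contraction of a chain of pieces

A class of graphs which is closed under the identification of vertices, and whose members without cut
edges have a nowhere-zero flow over the group of order four or a Petersen quotient, may be used after
the contraction of a chain of circuits or ears with at most four new edges and of doubly connected
pieces (starting library, `N410/DC`).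
-/

set_option autoImplicit false
set_option linter.unusedSectionVars false

namespace Pool.Agent.J4H96.OC

open Finset Pool.Agent.TH362.TF Pool.Agent.TH362.TF.Four Pool.Agent.R890.FF
open Pool.Agent.H160R2.HF Pool.Agent.H23.PS Pool.Agent.TH676.Z Pool.Agent.R926.SC
open Pool.Agent.N410.DC (Inh GCl oc_gen)

variable {V E : Type} [Fintype V] [DecidableEq V] [Fintype E] [DecidableEq E]

/-- every identification of vertices after which the edges of `F` are loops gives a graph of the
class -/
def Ctr (Cl : (E → V) → (E → V) → Prop) (s t : E → V) (F : Finset E) : Prop :=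
  ∀ ρ : V → V, (∀ e ∈ F, ρ (s e) = ρ (t e)) → Cl (fun e => ρ (s e)) (fun e => ρ (t e))

theorem inh_ctr {Cl : (E → V) → (E → V) → Prop}
    (hf : ∀ s t : E → V, Cl s t → N1 s t univ → NZ s t univ ∨ PQ s t univ) : Inh (Ctr Cl) where
  map := fun ρ h ρ' h' => h (ρ' ∘ ρ) h'
  loops := fun h hl ρ _ => h ρ (fun e he => congrArg ρ (hl e he))
  flow := fun {s t} h h1 => hf s t (h id (fun e he => absurd he (notMem_empty e))) h1

/-- if the graph obtained by the identification of some vertices which are joined by `F` belongs to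
the class then this holds for all identifications after which the edges of `F` are loops -/
theorem ctr_of {Cl : (E → V) → (E → V) → Prop}
    (hm : ∀ (s t : E → V) (π : V → V), Cl s t → Cl (fun e => π (s e)) (fun e => π (t e)))
    {s t : E → V} {F : Finset E} (ρ : V → V)
    (hρ : ∀ u v, ρ u = ρ v → ∀ Y : Finset V, Disjoint (crs s t Y) F → (u ∈ Y ↔ v ∈ Y))
    (hc : Cl (fun e => ρ (s e)) (fun e => ρ (t e))) : Ctr Cl s t F := by
  classical
  intro ρ' hρ'
  have h1 : ∀ u v, ρ u = ρ v → ρ' u = ρ' v := by
    intro u v huv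
    have h2 := hρ u v huv (univ.filter (fun w => ρ' w = ρ' u)) (by
      rw [disjoint_left]
      intro e he heF
      rw [mem_crs] at he
      apply he
      simp only [mem_filter, mem_univ, true_and, hρ' e heF])
    simp only [mem_filter, mem_univ, true_and] at h2
    exact (h2.1 trivial).symm
  have h3 : ∃ σ : V → V, ∀ v, σ (ρ v) = ρ' v := by
    refine ⟨fun w => if h : ∃ v, ρ v = w then ρ' h.choose else w, fun v => ?_⟩
    have h4 : ∃ v', ρ v' = ρ v := ⟨v, rfl⟩
    change (if h : ∃ v', ρ v' = ρ v then ρ' h.choose else ρ v) = ρ' v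
    rw [dif_pos h4]
    exact h1 _ _ h4.choose_spec
  obtain ⟨σ, hσ⟩ := h3
  have h5 := hm _ _ σ hc
  simp only [hσ] at h5
  exact h5

/-- **oriented covers after a contraction** -/
theorem oc_ctr {Cl : (E → V) → (E → V) → Prop}
    (hm : ∀ (s t : E → V) (π : V → V), Cl s t → Cl (fun e => π (s e)) (fun e => π (t e)))
    (hf : ∀ s t : E → V, Cl s t → N1 s t univ → NZ s t univ ∨ PQ s t univ)
    (K : OrGraph V E) (hB : K.Bridgeless) {m : ℕ} {C : Fin m → Finset E}
    (h : ∀ i, (((C i \ (univ.filter (fun j => j < i)).biUnion C).card ≤ 4 ∧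
        ∀ Y : Finset V, Disjoint (crs K.t K.h Y) ((univ.filter (fun j => j < i)).biUnion C) →
          (crs K.t K.h Y ∩ C i).card ≠ 1) ∨
      ∃ T₁ T₂ : Finset E, T₁ ⊆ C i ∧ T₂ ⊆ C i ∧ Disjoint T₁ T₂ ∧
        ∀ Y : Finset V, Disjoint (crs K.t K.h Y) ((univ.filter (fun j => j < i)).biUnion C) →
          ¬ Disjoint (crs K.t K.h Y) (C i) →
            ¬ Disjoint (crs K.t K.h Y) T₁ ∧ ¬ Disjoint (crs K.t K.h Y) T₂)) (ρ : V → V)
    (hρ : ∀ u v, ρ u = ρ v → ∀ Y : Finset V, Disjoint (crs K.t K.h Y) (univ.biUnion C) →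
      (u ∈ Y ↔ v ∈ Y))
    (hc : Cl (fun e => ρ (K.t e)) (fun e => ρ (K.h e))) : FiveClasses K :=
  oc_gen (inh_ctr hf) K hB (GCl.of_steps h (ctr_of hm ρ hρ hc))

/-! ## the three classes -/

/-- every matching has at most eight edges -/
def Mat8 (s t : E → V) : Prop := ∀ M : Finset E, R769.MN.IsMat s t M → M.card ≤ 8

theorem mat8_map (s t : E → V) (π : V → V) (h : Mat8 s t) :
    Mat8 (fun e => π (s e)) (fun e => π (t e)) := fun M hM => h M (hM.of_map π)

theorem mat8_flow (s t : E → V) (h : Mat8 s t) (h1 : N1 s t univ) :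
    NZ s t univ ∨ PQ s t univ := R769.MN.match8 s t univ h1 (fun M _ hM => h M hM)

/-- seven vertices or a dominating set -/
def SD (s t : E → V) : Prop := R545.PC.Cl s t ∨ N399.DM.Cl s t

theorem sd_map (s t : E → V) (π : V → V) (h : SD s t) :
    SD (fun e => π (s e)) (fun e => π (t e)) :=
  h.imp (fun h => R545.PC.cl_map s t π h) (fun h => h.map π)

theorem sd_flow (s t : E → V) (h : SD s t) (h1 : N1 s t univ) :
    NZ s t univ ∨ PQ s t univ :=
  h.elim (fun h => R545.PC.seven' s t h h1) (fun h => h.flow h1)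

end Pool.Agent.J4H96.OC
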