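import Pool.Agent.J4H96.OC.Ctr

/-!
# Gluing oriented covers along edge cuts with at most three edges
-/

set_option autoImplicit false
set_option linter.unusedSectionVars false

namespace Pool.Agent.J4H96.OC

open Finset Pool.Agent.TH362.TF Pool.Agent.R890.FF
open Pool.Agent.H160R2.HF Pool.Agent.H23.PS Pool.Agent.TH676.Z Pool.Agent.R926.SC
open Pool.Agent.N410.DC (Inh GCl)

variable {V E : Type} [Fintype V] [DecidableEq V] [Fintype E] [DecidableEq E]
variable {Γ : Type} [AddCommGroup Γ] {A : Γ → Prop}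

/-- the outward values on a cut of a flow which is balanced on one side have sum zero -/
theorem cut_sum (s t : E → V) (X : Finset V) (g : E → Γ) (hb : ∀ v ∈ X, net s t g v = 0) :
    ∑ e ∈ crs s t X, (if s e ∈ X then g e else - g e) = 0 := by
  classical
  have h2 := net_cut s t g X hb
  refine Eq.trans ?_ h2
  refine Eq.trans (Finset.sum_congr rfl fun e he => ?_)
    (Finset.sum_subset (Finset.subset_univ (crs s t X)) fun e _ hx => ?_)
  · rw [mem_crs] at he
    by_cases h3 : s e ∈ X
    · have h4 : t e ∉ X := fun h => he ⟨fun _ => h, fun _ => h3⟩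
      rw [if_pos h3, if_pos h3, if_neg h4, sub_zero]
    · have h4 : t e ∈ X := by
        by_contra h
        exact he ⟨fun h' => absurd h' h3, fun h' => absurd h' h⟩
      rw [if_neg h3, if_neg h3, if_pos h4, zero_sub]
  · rw [mem_crs, not_not] at hx
    by_cases h3 : s e ∈ X
    · rw [if_pos h3, if_pos (hx.1 h3), sub_self]
    · rw [if_neg h3, if_neg (fun h => h3 (hx.2 h)), sub_self]

/-- **gluing along an edge cut with at most three edges** -/
theorem glue3 (hA : Hom3 A) (hx : ∀ x, A x → ∃ y, A y ∧ A (x + y)) {s t : E → V} (X : Finset V)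
    (hc : (crs s t X).card ≤ 3) (hc1 : (crs s t X).card ≠ 1) {g1 g2 : E → Γ}
    (h1 : ∀ e, A (g1 e)) (h2 : ∀ e, A (g2 e)) (b1 : ∀ v ∈ X, net s t g1 v = 0)
    (b2 : ∀ v, v ∉ X → net s t g2 v = 0) : ∃ f : E → Γ, (∀ e, A (f e)) ∧ ∀ v, net s t f v = 0 := by
  classical
  set o1 : E → Γ := fun e => if s e ∈ X then g1 e else - g1 e with ho1
  set o2 : E → Γ := fun e => if s e ∈ X then g2 e else - g2 e with ho2
  have s1 : ∑ e ∈ crs s t X, o1 e = 0 := cut_sum s t X g1 b1
  have s2 : ∑ e ∈ crs s t X, o2 e = 0 := by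
    have h3 := cut_sum s t Xᶜ g2 (fun v hv => b2 v (mem_compl.1 hv))
    have h4 : crs s t Xᶜ = crs s t X := by
      ext e
      rw [mem_crs, mem_crs, mem_compl, mem_compl]
      tauto
    rw [h4] at h3
    have h5 : ∀ e, (if s e ∈ Xᶜ then g2 e else - g2 e) = - o2 e := by
      intro e
      simp only [ho2, mem_compl]
      by_cases h6 : s e ∈ X
      · rw [if_neg (not_not.2 h6), if_pos h6]
      · rw [if_pos h6, if_neg h6, neg_neg]
    simp only [h5, Finset.sum_neg_distrib] at h3
    exact neg_eq_zero.1 h3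
  have a1 : ∀ e, A (o1 e) := by
    intro e
    simp only [ho1]
    split_ifs
    · exact h1 e
    · exact hA.neg _ (h1 e)
  have a2 : ∀ e, A (o2 e) := by
    intro e
    simp only [ho2]
    split_ifs
    · exact h2 e
    · exact hA.neg _ (h2 e)
  have hσ : ∃ σ : Γ →+ Γ, (∀ z, A z → A (σ z)) ∧ ∀ e ∈ crs s t X, σ (o1 e) = o2 e := by
    have hcase : (crs s t X).card = 0 ∨ (crs s t X).card = 2 ∨ (crs s t X).card = 3 := by omega
    rcases hcase with h | h | h
    · refine ⟨AddMonoidHom.id _, fun z hz => hz, fun e he => ?_⟩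
      rw [card_eq_zero.1 h] at he
      exact absurd he (notMem_empty e)
    · obtain ⟨a, b, hab, hS⟩ := card_eq_two.1 h
      rw [hS, sum_pair hab] at s1 s2
      obtain ⟨y, hy, hy'⟩ := hx _ (a1 a)
      obtain ⟨z, hz, hz'⟩ := hx _ (a2 a)
      obtain ⟨σ, q1, q2, -⟩ := hA.hom _ _ _ _ (a1 a) hy hy' (a2 a) hz hz'
      refine ⟨σ, q1, fun e he => ?_⟩
      rw [hS, mem_insert, mem_singleton] at he
      rcases he with rfl | rfl
      · exact q2
      · have e1 : o1 e = - o1 a := (neg_eq_of_add_eq_zero_right s1).symm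
        have e2 : o2 e = - o2 a := (neg_eq_of_add_eq_zero_right s2).symm
        rw [e1, e2, map_neg, q2]
    · obtain ⟨a, b, c, hab, hac, hbc, hS⟩ := card_eq_three.1 h
      have hs : ∀ o : E → Γ, ∑ e ∈ crs s t X, o e = o a + o b + o c := by
        intro o
        rw [hS, sum_insert (by simp [hab, hac]), sum_pair hbc, add_assoc]
      rw [hs] at s1 s2
      have e1 : o1 c = -(o1 a + o1 b) := (neg_eq_of_add_eq_zero_right s1).symm
      have e2 : o2 c = -(o2 a + o2 b) := (neg_eq_of_add_eq_zero_right s2).symm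
      have t1 : A (o1 a + o1 b) := by
        rw [← neg_neg (o1 a + o1 b), ← e1]
        exact hA.neg _ (a1 c)
      have t2 : A (o2 a + o2 b) := by
        rw [← neg_neg (o2 a + o2 b), ← e2]
        exact hA.neg _ (a2 c)
      obtain ⟨σ, q1, q2, q3⟩ := hA.hom _ _ _ _ (a1 a) (a1 b) t1 (a2 a) (a2 b) t2
      refine ⟨σ, q1, fun e he => ?_⟩
      rw [hS, mem_insert, mem_insert, mem_singleton] at he
      rcases he with rfl | rfl | rfl
      · exact q2
      · exact q3
      · rw [e1, e2, map_neg, map_add, q2, q3]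
  obtain ⟨σ, q1, q2⟩ := hσ
  have q3 : ∀ e ∈ crs s t X, σ (g1 e) = g2 e := by
    intro e he
    have h3 := q2 e he
    simp only [ho1, ho2] at h3
    by_cases h4 : s e ∈ X
    · rwa [if_pos h4, if_pos h4] at h3
    · rw [if_neg h4, if_neg h4, map_neg] at h3
      exact neg_injective h3
  refine ⟨fun e => if s e ∈ X ∨ t e ∈ X then σ (g1 e) else g2 e, fun e => ?_, fun v => ?_⟩
  · beta_reduce
    split_ifs
    · exact q1 _ (h1 e)
    · exact h2 e
  · by_cases hv : v ∈ X
    · rw [net_eq s t _ (fun e => σ (g1 e)) v (fun e he _ => ?_), net_hom, b1 v hv, map_zero]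
      rcases he with rfl | rfl
      · exact if_pos (Or.inl hv)
      · exact if_pos (Or.inr hv)
    · rw [net_eq s t _ g2 v (fun e he _ => ?_), b2 v hv]
      by_cases h3 : s e ∈ X ∨ t e ∈ X
      · have h4 : e ∈ crs s t X := by
          rw [mem_crs]
          rcases he with rfl | rfl
          · exact fun h => hv (h.2 (h3.resolve_left hv))
          · exact fun h => hv (h.1 (h3.resolve_right hv))
        exact (if_pos h3).trans (q3 e h4)
      · exact if_neg h3

/-- a flow of the graph in which all vertices outside of `X` are identified is balanced on `X` -/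
theorem net_side {s t : E → V} {X : Finset V} {a : V} (ha : a ∉ X) {g : E → Γ}
    (h : ∀ v, net (fun e => if s e ∈ X then s e else a) (fun e => if t e ∈ X then t e else a) g v = 0) :
    ∀ v ∈ X, net s t g v = 0 := by
  intro v hv
  rw [← h v]
  have hiff : ∀ x : V, (if x ∈ X then x else a) = v ↔ x = v := by
    intro x
    by_cases h6 : x ∈ X
    · rw [if_pos h6]
    · rw [if_neg h6]
      constructor
      · intro h7
        exact absurd (h7 ▸ hv) ha
      · rintro rfl
        exact absurd hv h6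
  unfold R890.FF.net
  refine Finset.sum_congr rfl fun e _ => ?_
  simp only [hiff]

theorem isU_ext : ∀ x, IsU x → ∃ y, IsU y ∧ IsU (x + y) := by
  rintro x ⟨i, j, hij, rfl⟩
  obtain ⟨k, hk1, hk2⟩ : ∃ k : Fin 5, k ≠ i ∧ k ≠ j := by
    revert i j
    decide
  refine ⟨U j k, ⟨j, k, hk2.symm, rfl⟩, ⟨i, k, hk1.symm, ?_⟩⟩
  funext l
  simp only [U, Pi.add_apply]
  ring

/-- **covers of the two sides of an edge cut with at most three edges give a cover** -/
theorem fl_glue {s t : E → V} (hN : N1 s t univ) (X : Finset V) (a b : V) (ha : a ∉ X) (hb : b ∈ X)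
    (hc : (crs s t X).card ≤ 3)
    (h1 : ∃ f : E → Fin 5 → ℤ, (∀ e, IsU (f e)) ∧ ∀ v, net (fun e => if s e ∈ X then s e else a)
      (fun e => if t e ∈ X then t e else a) f v = 0)
    (h2 : ∃ f : E → Fin 5 → ℤ, (∀ e, IsU (f e)) ∧ ∀ v, net (fun e => if s e ∈ Xᶜ then s e else b)
      (fun e => if t e ∈ Xᶜ then t e else b) f v = 0) :
    ∃ f : E → Fin 5 → ℤ, (∀ e, IsU (f e)) ∧ ∀ v, net s t f v = 0 := by
  classical
  obtain ⟨g1, p1, r1⟩ := h1
  obtain ⟨g2, p2, r2⟩ := h2
  refine glue3 hom3U isU_ext X hc ?_ p1 p2 (net_side ha r1) (fun v hv =>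
    net_side (X := Xᶜ) (a := b) (fun h => (mem_compl.1 h) hb) r2 v (mem_compl.2 hv))
  have h3 := hN (fun v => decide (v ∈ X))
  have h4 : cut s t univ (fun v => decide (v ∈ X)) = crs s t X := by
    ext e
    simp only [cut, mem_filter, mem_univ, true_and, mem_crs, ne_eq, decide_eq_decide]
  rwa [h4] at h3

theorem n1_map {s t : E → V} (hN : N1 s t univ) (π : V → V) :
    N1 (fun e => π (s e)) (fun e => π (t e)) univ :=
  quot_n1 (S' := univ) (f := π) (Subset.refl _) (fun _ h h' => absurd h h') hN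

/-- the flows of a class after the contraction of a chain -/
theorem fl_gen {K : (E → V) → (E → V) → Finset E → Prop} (hK : Inh K) {s t : E → V}
    (hN : N1 s t univ) (hC : GCl K s t) :
    ∃ f : E → Fin 5 → ℤ, (∀ e, IsU (f e)) ∧ ∀ v, net s t f v = 0 :=
  sgn_class hom3U petOc classes_of_nz (Cl := fun s t : E → V => GCl K s t)
    (fun _ _ π h => h.map hK π) (fun _ _ h h' => h.flow hK h') _ s t rfl hC hN

end Pool.Agent.J4H96.OC
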